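import Pool.Agent.H68.BB.Red
import Mathlib.RingTheory.Valuation.LocalSubring

/-! # SD.Lang : extension of homomorphisms to places (Mathlib only)

`R` a subring of the field `F`, `χ : R → L` a homomorphism to an algebraically closed field: it extends to a local homomorphism of a valuation subring `V ⊇ R` of `F` to `L` (same field `L`).
Zorn's lemma for the graphs `Γ ⊆ F × L` of homomorphisms.  For a maximal `Γ`: `(a, y) ∈ Γ`, `y ≠ 0` gives `(a⁻¹, y⁻¹) ∈ Γ`; for `x ∈ F` either `(x, λ) ∈ Γ` for some `λ` or some polynomial `p` over `Γ` with `p(x) = 0` reduces to `1`.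
The domain is a local ring, maximal for domination, hence a valuation subring by `LocalSubring.isMax_iff`. -/

namespace SD

open H68.BB Polynomial

section

variable {F L : Type} [Field F] [Field L]

/-- `Γ` is the graph of a map -/
def Gf (Γ : Subring (F × L)) : Prop := ∀ y : L, ((0, y) : F × L) ∈ Γ → y = 0

theorem Gf.uniq {Γ : Subring (F × L)} (h : Gf Γ) {x : F} {y y' : L} (h1 : ((x, y) : F × L) ∈ Γ)
    (h2 : ((x, y') : F × L) ∈ Γ) : y = y' := by
  have h3 := Γ.sub_mem h1 h2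
  rw [Prod.mk_sub_mk, sub_self] at h3
  exact sub_eq_zero.1 (h _ h3)

theorem gf_max (Γ0 : Subring (F × L)) (h0 : Gf Γ0) :
    ∃ Γ : Subring (F × L), Γ0 ≤ Γ ∧ Gf Γ ∧ ∀ Γ' : Subring (F × L), Γ ≤ Γ' → Gf Γ' → Γ' ≤ Γ := by
  obtain ⟨Γ, h1, h2⟩ := zorn_le_nonempty₀ {Γ : Subring (F × L) | Gf Γ} (by
    intro c hc hch y hy
    refine ⟨sSup c, ?_, fun z hz => le_sSup hz⟩
    intro w hw
    rw [Subring.mem_sSup_of_directedOn ⟨y, hy⟩ hch.directedOn] at hw
    obtain ⟨s, hs, hw⟩ := hw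
    exact hc hs w hw) Γ0 h0
  exact ⟨Γ, h1, h2.prop, fun Γ' h3 h4 => h2.le_of_ge h4 h3⟩

variable {Γ : Subring (F × L)}

theorem gf_inv (hG : Gf Γ) (hmax : ∀ Γ' : Subring (F × L), Γ ≤ Γ' → Gf Γ' → Γ' ≤ Γ) {a : F} {y : L}
    (h : ((a, y) : F × L) ∈ Γ) (hy : y ≠ 0) : ((a⁻¹, y⁻¹) : F × L) ∈ Γ := by
  have ha : a ≠ 0 := by
    rintro rfl
    exact hy (hG y h)
  let Γ' : Subring (F × L) :=
    { carrier := {p | ∃ n : ℕ, ((a, y) : F × L) ^ n * p ∈ Γ}
      mul_mem' := by
        rintro p q ⟨n, hn⟩ ⟨m, hm⟩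
        refine ⟨n + m, ?_⟩
        have e : ((a, y) : F × L) ^ (n + m) * (p * q) =
            (((a, y) : F × L) ^ n * p) * (((a, y) : F × L) ^ m * q) := by ring
        rw [e]
        exact Γ.mul_mem hn hm
      one_mem' := ⟨0, by rw [pow_zero, one_mul]; exact Γ.one_mem⟩
      add_mem' := by
        rintro p q ⟨n, hn⟩ ⟨m, hm⟩
        refine ⟨n + m, ?_⟩
        have e : ((a, y) : F × L) ^ (n + m) * (p + q) =
            ((a, y) : F × L) ^ m * (((a, y) : F × L) ^ n * p) +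
              ((a, y) : F × L) ^ n * (((a, y) : F × L) ^ m * q) := by ring
        rw [e]
        exact Γ.add_mem (Γ.mul_mem (Γ.pow_mem h _) hn) (Γ.mul_mem (Γ.pow_mem h _) hm)
      zero_mem' := ⟨0, by rw [mul_zero]; exact Γ.zero_mem⟩
      neg_mem' := by
        rintro p ⟨n, hn⟩
        exact ⟨n, by rw [mul_neg]; exact Γ.neg_mem hn⟩ }
  have h1 : Γ ≤ Γ' := fun p hp => ⟨0, by rw [pow_zero, one_mul]; exact hp⟩
  have h2 : Gf Γ' := by
    rintro w ⟨n, hn⟩
    rw [Prod.pow_mk, Prod.mk_mul_mk, mul_zero] at hn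
    exact (mul_eq_zero.1 (hG _ hn)).resolve_left (pow_ne_zero _ hy)
  refine hmax Γ' h1 h2 ⟨1, ?_⟩
  rw [pow_one, Prod.mk_mul_mk, mul_inv_cancel₀ ha, mul_inv_cancel₀ hy]
  exact Γ.one_mem

/-- first projection -/
def pr1 (Γ : Subring (F × L)) : Γ →+* F := (RingHom.fst F L).comp Γ.subtype

/-- second projection -/
def pr2 (Γ : Subring (F × L)) : Γ →+* L := (RingHom.snd F L).comp Γ.subtype

theorem gf_ext [IsAlgClosed L] (hG : Gf Γ)
    (hmax : ∀ Γ' : Subring (F × L), Γ ≤ Γ' → Gf Γ' → Γ' ≤ Γ) (x : F) :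
    (∃ l : L, ((x, l) : F × L) ∈ Γ) ∨
      ∃ p : Polynomial Γ, eval₂ (pr1 Γ) x p = 0 ∧ p.map (pr2 Γ) = 1 := by
  let K0 : Subfield L :=
    { (pr2 Γ).range with
      inv_mem' := by
        rintro y ⟨γ, rfl⟩
        by_cases hy : pr2 Γ γ = 0
        · rw [hy, inv_zero]
          exact ⟨0, map_zero _⟩
        · exact ⟨⟨((pr1 Γ γ)⁻¹, (pr2 Γ γ)⁻¹), gf_inv hG hmax γ.2 hy⟩, rfl⟩ }
  let f : Γ →+* K0 := (pr2 Γ).codRestrict K0.toSubring (fun γ => ⟨γ, rfl⟩)
  have hf : Function.Surjective f := by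
    rintro ⟨y, γ, hγ⟩
    exact ⟨γ, Subtype.ext hγ⟩
  have hff : K0.subtype.comp f = pr2 Γ := RingHom.ext fun _ => rfl
  let J : Ideal K0[X] := (RingHom.ker (eval₂RingHom (pr1 Γ) x)).map (mapRingHom f)
  have hJmem : ∀ q ∈ J, ∃ p : Polynomial Γ, eval₂ (pr1 Γ) x p = 0 ∧ p.map f = q := by
    intro q hq
    obtain ⟨p, hp, hpq⟩ := (Ideal.mem_map_iff_of_surjective (mapRingHom f) (map_surjective f hf)).1 hq
    exact ⟨p, hp, hpq⟩
  by_cases hJ : J = ⊤
  · right
    obtain ⟨p, hp, hp1⟩ := hJmem 1 (by rw [hJ]; trivial)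
    refine ⟨p, hp, ?_⟩
    rw [← hff, ← Polynomial.map_map, hp1, Polynomial.map_one]
  · left
    obtain ⟨l, hl⟩ : ∃ l : L, ∀ q ∈ J, eval₂ K0.subtype l q = 0 := by
      obtain ⟨g, hg⟩ : ∃ g : K0[X], J = Ideal.span {g} := (IsPrincipalIdealRing.principal J).principal
      have hd : g.degree ≠ 0 := by
        intro hd
        apply hJ
        rw [hg, Ideal.span_singleton_eq_top]
        exact isUnit_iff_degree_eq_zero.2 hd
      obtain ⟨l, hl⟩ := IsAlgClosed.exists_eval₂_eq_zero K0.subtype g hd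
      refine ⟨l, fun q hq => ?_⟩
      rw [hg, Ideal.mem_span_singleton] at hq
      obtain ⟨w, rfl⟩ := hq
      rw [eval₂_mul, hl, zero_mul]
    refine ⟨l, ?_⟩
    have h1 : ∀ p : Polynomial Γ, eval₂ Γ.subtype ((x, l) : F × L) p =
        (eval₂ (pr1 Γ) x p, eval₂ (pr2 Γ) l p) := by
      intro p
      have e1 := hom_eval₂ p Γ.subtype (RingHom.fst F L) ((x, l) : F × L)
      have e2 := hom_eval₂ p Γ.subtype (RingHom.snd F L) ((x, l) : F × L)
      exact Prod.ext e1 e2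
    refine hmax (eval₂RingHom Γ.subtype ((x, l) : F × L)).range ?_ ?_ ?_
    · intro γ hγ
      refine ⟨C ⟨γ, hγ⟩, ?_⟩
      rw [coe_eval₂RingHom, eval₂_C]
      rfl
    · rintro y ⟨p, hp⟩
      rw [coe_eval₂RingHom, h1, Prod.mk.injEq] at hp
      have h2 : p.map f ∈ J := Ideal.mem_map_of_mem (mapRingHom f) hp.1
      have h3 := hl _ h2
      rw [eval₂_map, hff] at h3
      rw [← hp.2]
      exact h3
    · exact ⟨X, by rw [coe_eval₂RingHom, eval₂_X]⟩

end

theorem lang_exists {F L : Type} [Field F] [Field L] [IsAlgClosed L] (R : Subring F) (χ : R →+* L) :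
    ∃ (V : ValuationSubring F) (φ : V →+* L), IsLocalHom φ ∧ ∀ r : R, Rd V φ (r : F) (χ r) := by
  obtain ⟨Γ, h0, hG, hmax⟩ := gf_max (R.subtype.prod χ).range (by
    rintro y ⟨r, hr⟩
    have h1 : (r : F) = 0 := congrArg Prod.fst hr
    have h2 : χ r = y := congrArg Prod.snd hr
    have h3 : r = 0 := Subtype.ext h1
    rw [← h2, h3, map_zero])
  have hinj : Function.Injective (pr1 Γ) := by
    rintro ⟨⟨a, y⟩, h1⟩ ⟨⟨b, z⟩, h2⟩ h
    change a = b at h
    subst h
    exact Subtype.ext (Prod.ext rfl (hG.uniq h1 h2))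
  let W : Subring F := (pr1 Γ).range
  let e : Γ ≃+* W := RingEquiv.ofBijective (pr1 Γ).rangeRestrict
    ⟨fun a b h => hinj (congrArg Subtype.val h), (pr1 Γ).rangeRestrict_surjective⟩
  have he : ∀ γ : Γ, ((e γ : W) : F) = pr1 Γ γ := fun _ => rfl
  let ψ : W →+* L := (pr2 Γ).comp e.symm.toRingHom
  have hψ : ∀ γ : Γ, ψ (e γ) = pr2 Γ γ := by
    intro γ
    change pr2 Γ (e.symm (e γ)) = pr2 Γ γ
    rw [e.symm_apply_apply]
  have hloc : IsLocalHom ψ := by
    constructor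
    intro w hw
    obtain ⟨γ, rfl⟩ := e.surjective w
    rw [hψ] at hw
    have h1 : ((pr1 Γ γ)⁻¹, (pr2 Γ γ)⁻¹) ∈ Γ := gf_inv hG hmax γ.2 hw.ne_zero
    have h2 : pr1 Γ γ ≠ 0 := by
      intro h
      apply hw.ne_zero
      have h3 : γ = 0 := hinj (by rw [h, map_zero])
      rw [h3, map_zero]
    have h3 : e γ * e ⟨_, h1⟩ = 1 := by
      apply Subtype.ext
      change pr1 Γ γ * (pr1 Γ γ)⁻¹ = 1
      exact mul_inv_cancel₀ h2
    exact IsUnit.of_mul_eq_one _ h3
  have hlW : IsLocalRing W := RingHom.domain_isLocalRing ψ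
  let A0 : LocalSubring F := ⟨W⟩
  have hmaxA : IsMax A0 := by
    rintro B ⟨h, hh⟩
    have key : B.toSubring ≤ W := by
      intro x hx
      rcases gf_ext hG hmax x with ⟨l, hl⟩ | ⟨p, hp, hp1⟩
      · exact ⟨⟨_, hl⟩, rfl⟩
      · exfalso
        let j : Γ →+* B.toSubring := (Subring.inclusion h).comp e.toRingHom
        let r := IsLocalRing.residue B.toSubring
        have hj : ∀ γ : Γ, IsUnit (j γ) ↔ pr2 Γ γ ≠ 0 := by
          intro γ
          constructor
          · intro hu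
            have h1 : IsUnit (e γ) := hh.map_nonunit _ hu
            rw [← hψ]
            exact (h1.map ψ).ne_zero
          · intro hu
            have h1 : IsUnit (ψ (e γ)) := by
              rw [hψ]
              exact hu.isUnit
            exact (hloc.map_nonunit _ h1).map (Subring.inclusion h)
        have hr : ∀ γ : Γ, pr2 Γ γ = 0 → r (j γ) = 0 := by
          intro γ hγ
          rw [IsLocalRing.residue_eq_zero_iff, IsLocalRing.mem_maximalIdeal, mem_nonunits_iff, hj]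
          exact fun h => h hγ
        have h1 : eval₂ j ⟨x, hx⟩ p = 0 := by
          apply Subtype.ext
          have e1 := hom_eval₂ p j B.toSubring.subtype ⟨x, hx⟩
          have e2 : B.toSubring.subtype.comp j = pr1 Γ := RingHom.ext fun _ => rfl
          rw [e2] at e1
          exact e1.trans hp
        have h2 : p.map (r.comp j) = C (r (j (p.coeff 0))) := by
          ext n
          rw [coeff_map, coeff_C]
          split_ifs with hn
          · rw [hn]
            rfl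
          · have h3 : pr2 Γ (p.coeff n) = 0 := by
              rw [← coeff_map, hp1, coeff_one, if_neg hn]
            exact hr _ h3
        have h3 : r (j (p.coeff 0)) = 0 := by
          have h4 : eval₂ (r.comp j) (r ⟨x, hx⟩) p = 0 := by
            rw [← hom_eval₂, h1, map_zero]
          rw [eval₂_eq_eval_map, h2, eval_C] at h4
          exact h4
        have h5 : pr2 Γ (p.coeff 0) ≠ 0 := by
          rw [← coeff_map, hp1, coeff_one_zero]
          exact one_ne_zero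
        rw [IsLocalRing.residue_eq_zero_iff, IsLocalRing.mem_maximalIdeal, mem_nonunits_iff, hj] at h3
        exact h3 h5
    have hAB : B = A0 := LocalSubring.toSubring_injective (le_antisymm key h)
    rw [hAB]
  obtain ⟨V, hV⟩ := LocalSubring.isMax_iff.1 hmaxA
  have hVW : ∀ x : F, x ∈ V ↔ x ∈ W := by
    intro x
    have h1 : V.toSubring = W := congrArg LocalSubring.toSubring hV
    rw [← h1]
    rfl
  let i : V →+* W := V.subtype.codRestrict W (fun x => (hVW _).1 x.2)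
  refine ⟨V, ψ.comp i, ⟨?_⟩, ?_⟩
  · intro a ha
    have h1 : IsUnit (i a) := hloc.map_nonunit _ ha
    obtain ⟨b, hb⟩ := h1.exists_right_inv
    have h2 : (a : F) * (b : F) = 1 := congrArg Subtype.val hb
    refine IsUnit.of_mul_eq_one ⟨(b : F), (hVW _).2 b.2⟩ (Subtype.ext h2)
  · intro r
    have h1 : ((r : F), χ r) ∈ Γ := h0 ⟨r, rfl⟩
    have h2 : (r : F) ∈ W := ⟨⟨_, h1⟩, rfl⟩
    refine ⟨(hVW _).2 h2, ?_⟩
    exact hψ ⟨_, h1⟩

end SD
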