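import Pool.Agent.H71.SD.Gen

/-! # SD.RelU : every sextic form over every algebraically closed field is a specialisation of the generic one (about 120 lines)

`L1 = AlgebraicClosure (FractionRing (MvPolynomial (Mo ⊕ K) ℤ))`.  `MvPolynomial Mo ℤ → MvPolynomial (Mo ⊕ K) ℤ` (`rename Sum.inl`, injective) induces `FractionRing (MvPolynomial Mo ℤ) → L1` (`IsFractionRing.lift`) and `U → L1` (`IsAlgClosed.lift`): `Algebra U L1`.
`R` = the image of `MvPolynomial (Mo ⊕ K) ℤ` in `L1` (injective), `χ : R → K`, `a_m ↦ coeff m f`, `x_l ↦ l` (`MvPolynomial.eval₂Hom (Int.castRingHom K)`, through the isomorphism with the image); `lang_exists`.  Surjective since `x_l ↦ l`.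
The coefficients: `coeff_fU`; for `m ∉ ex6` both are zero (`f` is homogeneous of degree 6). -/

namespace SD

open H68.BB H25.DP

/-- the polynomial ring in the coefficients and in elements of `K` -/
private abbrev R0 (K : Type) : Type := MvPolynomial (Mo ⊕ K) ℤ

/-- the big field -/
private abbrev L0 (K : Type) : Type := AlgebraicClosure (FractionRing (R0 K))

private noncomputable def toL (K : Type) : R0 K →+* L0 K := algebraMap (R0 K) (L0 K)

private theorem toL_inj (K : Type) : Function.Injective (toL K) := by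
  have h : toL K = (algebraMap (FractionRing (R0 K)) (L0 K)).comp (algebraMap (R0 K) (FractionRing (R0 K))) :=
    IsScalarTower.algebraMap_eq _ _ _
  rw [h]
  exact (algebraMap (FractionRing (R0 K)) (L0 K)).injective.comp (IsFractionRing.injective (R0 K) (FractionRing (R0 K)))

private theorem uhom_exists (K : Type) : ∃ g : U →+* L0 K, ∀ p : MvPolynomial Mo ℤ,
    g (toU p) = toL K (MvPolynomial.rename Sum.inl p) := by
  let g0 : MvPolynomial Mo ℤ →+* L0 K := (toL K).comp (MvPolynomial.rename (R := ℤ) (Sum.inl : Mo → Mo ⊕ K)).toRingHom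
  have hg0 : Function.Injective g0 := (toL_inj K).comp (MvPolynomial.rename_injective _ Sum.inl_injective)
  let g1 : FractionRing (MvPolynomial Mo ℤ) →+* L0 K := IsFractionRing.lift hg0
  let _ : Algebra (FractionRing (MvPolynomial Mo ℤ)) (L0 K) := g1.toAlgebra
  let g2 : U →ₐ[FractionRing (MvPolynomial Mo ℤ)] L0 K := IsAlgClosed.lift
  refine ⟨g2.toRingHom, fun p => ?_⟩
  have h1 : toU p = algebraMap (FractionRing (MvPolynomial Mo ℤ)) U (algebraMap (MvPolynomial Mo ℤ) _ p) := by
    unfold toU
    rw [IsScalarTower.algebraMap_apply (MvPolynomial Mo ℤ) (FractionRing (MvPolynomial Mo ℤ)) U]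
  rw [h1]
  have h2 : g2.toRingHom (algebraMap (FractionRing (MvPolynomial Mo ℤ)) U (algebraMap (MvPolynomial Mo ℤ) _ p)) =
      g1 (algebraMap (MvPolynomial Mo ℤ) _ p) := g2.commutes _
  rw [h2]
  have h3 : g1 (algebraMap (MvPolynomial Mo ℤ) _ p) = g0 p := IsFractionRing.lift_algebraMap hg0 p
  rw [h3]
  rfl

theorem rel_u (K : Type) [Field K] [IsAlgClosed K] {f : MvPolynomial (Fin 3) K} (hf : f.IsHomogeneous 6) :
    ∃ (L1 : Type) (_ : Field L1) (_ : IsAlgClosed L1) (_ : CharZero L1) (_ : Algebra U L1) (V : ValuationSubring L1) (φ : V →+* K),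
      IsLocalHom φ ∧ Function.Surjective φ ∧ ∀ m, Rd V φ (algebraMap U L1 (MvPolynomial.coeff m fU)) (MvPolynomial.coeff m f) := by
  classical
  obtain ⟨g, hg⟩ := uhom_exists K
  have hcz : CharZero (L0 K) := by
    have h1 : Function.Injective (algebraMap (R0 K) (L0 K)) := toL_inj K
    exact charZero_of_injective_algebraMap h1
  let E : R0 K ≃+* (toL K).range := RingEquiv.ofBijective (toL K).rangeRestrict
    ⟨fun x y h => toL_inj K (congrArg Subtype.val h), (toL K).rangeRestrict_surjective⟩
  let ev : R0 K →+* K := MvPolynomial.eval₂Hom (Int.castRingHom K) (Sum.elim (fun m => MvPolynomial.coeff m f) id)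
  obtain ⟨V, φ, hloc, hR⟩ := lang_exists (toL K).range (ev.comp E.symm.toRingHom)
  have hp : ∀ p : R0 K, Rd V φ (toL K p) (ev p) := by
    intro p
    have h1 := hR (E p)
    have h2 : (ev.comp E.symm.toRingHom) (E p) = ev p := by
      show ev (E.symm (E p)) = ev p
      rw [E.symm_apply_apply]
    rw [h2] at h1
    exact h1
  refine ⟨L0 K, inferInstance, inferInstance, hcz, g.toAlgebra, V, φ, hloc, ?_, ?_⟩
  · intro l
    obtain ⟨h1, h2⟩ := hp (MvPolynomial.X (Sum.inr l))
    refine ⟨⟨_, h1⟩, h2.trans ?_⟩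
    show MvPolynomial.eval₂Hom (Int.castRingHom K) _ (MvPolynomial.X (Sum.inr l)) = l
    rw [MvPolynomial.eval₂Hom_X']
    rfl
  · intro m
    show Rd V φ (g (MvPolynomial.coeff m fU)) (MvPolynomial.coeff m f)
    rw [coeff_fU]
    split_ifs with hm
    · rw [hg]
      have h1 := hp (MvPolynomial.X (Sum.inl m))
      have h2 : ev (MvPolynomial.X (Sum.inl m)) = MvPolynomial.coeff m f := by
        show MvPolynomial.eval₂Hom (Int.castRingHom K) _ (MvPolynomial.X (Sum.inl m)) = _
        rw [MvPolynomial.eval₂Hom_X']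
        rfl
      rw [h2] at h1
      have h3 : MvPolynomial.rename (Sum.inl : Mo → Mo ⊕ K) (MvPolynomial.X m : MvPolynomial Mo ℤ) =
          MvPolynomial.X (Sum.inl m) := MvPolynomial.rename_X _ _
      rw [h3]
      exact h1
    · rw [map_zero]
      have h1 : MvPolynomial.coeff m f = 0 := by
        refine hf.coeff_eq_zero (fun h2 => hm ((mem_ex6 m).2 ?_))
        exact h2
      rw [h1]
      exact Rd.zero

end SD
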