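import Pool.Agent.H71.SZ.MainS
import Pool.Agent.H25.DPR.Def

/-! # SD.GlueDP : specialisation of `H25.DPR.RatEq` (about 250 lines)

As `Pool/Agent/H71/SZ/GlueES.lean`.  Blocks `J = Fin k`, `I _ = Fin 4`, weights `![1, 1, 1, 3]`; `toD P j = ![p 0, p 1, p 2, z]`; `OnD`: every block is `≠ 0` and satisfies `z ^ 2 = ev f p` (then `p ≠ 0`).
`ofD`: the points with given coordinate vector if `OnD` holds, otherwise any tuple (there are points: `L` is algebraically closed).  `toD_rat`, `ofD_rat`: images of generators are generators (as `rat_tov`, `to_rat`, `of_rat` in `GlueES`, `GlueFX`).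
`clo_dp`: closedness of `z ^ 2 = ev f p` for places and reduction of coefficients; `ev` is homogeneous of degree 6. -/

namespace SD

open H68.BB H25.DP SZ

variable {K1 K L1 L : Type} [Field K1] [Field K] [Field L1] [Algebra K1 L1] [Field L] [Algebra K L]
  {f1 : MvPolynomial (Fin 3) K1} {f : MvPolynomial (Fin 3) K} {k : ℕ}

/-! private lemmas -/

private def gd_w (k : ℕ) : ∀ _ : Fin k, Fin 4 → ℕ := fun _ => ![1, 1, 1, 3]

private def gd_hd {F : Type} (v : Fin 4 → F) : Fin 3 → F := ![v 0, v 1, v 2]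

private def gd_to {F : Type} [Field F] [Algebra K F] (P : Fin k → XP f F) : Vc (fun _ : Fin k => Fin 4) F :=
  fun j => ![(P j).p 0, (P j).p 1, (P j).p 2, (P j).z]

private def gd_OnB {F : Type} [Field F] [Algebra K F] (f : MvPolynomial (Fin 3) K) (v : Fin 4 → F) : Prop :=
  gd_hd v ≠ 0 ∧ v 3 ^ 2 = ev f (gd_hd v)

private def gd_OnD {F : Type} [Field F] [Algebra K F] (f : MvPolynomial (Fin 3) K) (P : Vc (fun _ : Fin k => Fin 4) F) : Prop :=
  ∀ j, gd_OnB f (P j)

open Classical in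
private noncomputable def gd_ofB {F : Type} [Field F] [Algebra K F] (d : XP f F) (v : Fin 4 → F) : XP f F :=
  if h : gd_OnB f v then ⟨gd_hd v, v 3, h.1, h.2⟩ else d

private noncomputable def gd_of {F : Type} [Field F] [Algebra K F] (d : XP f F) (P : Vc (fun _ : Fin k => Fin 4) F) :
    Fin k → XP f F := fun j => gd_ofB d (P j)

private theorem gd_hdt {F : Type} (p : Fin 3 → F) (z : F) : gd_hd ![p 0, p 1, p 2, z] = p := by
  funext i
  fin_cases i <;> rfl

private theorem gd_on_to {F : Type} [Field F] [Algebra K F] (P : Fin k → XP f F) : gd_OnD f (gd_to P) := by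
  intro j
  refine ⟨?_, ?_⟩
  · change gd_hd ![(P j).p 0, (P j).p 1, (P j).p 2, (P j).z] ≠ 0
    rw [gd_hdt]
    exact (P j).ne
  · change (P j).z ^ 2 = ev f (gd_hd ![(P j).p 0, (P j).p 1, (P j).p 2, (P j).z])
    rw [gd_hdt]
    exact (P j).eq

private theorem gd_to_of {F : Type} [Field F] [Algebra K F] (d : XP f F) {P : Vc (fun _ : Fin k => Fin 4) F} (h : gd_OnD f P) :
    gd_to (gd_of d P) = P := by
  funext j
  have e : gd_of d P j = ⟨gd_hd (P j), P j 3, (h j).1, (h j).2⟩ := dif_pos (h j)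
  unfold gd_to
  rw [e]
  funext i
  fin_cases i <;> rfl

private theorem gd_inj {F : Type} [Field F] [Algebra K F] : Function.Injective (gd_to : (Fin k → XP f F) → _) := by
  intro P Q h
  funext j
  have h1 := congrFun h j
  have h2 : gd_hd ![(P j).p 0, (P j).p 1, (P j).p 2, (P j).z] = gd_hd ![(Q j).p 0, (Q j).p 1, (Q j).p 2, (Q j).z] :=
    congrArg gd_hd h1
  rw [gd_hdt, gd_hdt] at h2
  exact XP.ext h2 (congrFun h1 3)

private theorem gd_of_to {F : Type} [Field F] [Algebra K F] (d : XP f F) (P : Fin k → XP f F) : gd_of d (gd_to P) = P :=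
  gd_inj (gd_to_of d (gd_on_to P))

private theorem gd_sc {F : Type} [Field F] [Algebra K F] (hf : f.IsHomogeneous 6) (c : F) (p : Fin 3 → F) :
    ev f (fun i => c * p i) = c ^ 6 * ev f p := by
  unfold ev
  rw [MvPolynomial.aeval_def, MvPolynomial.aeval_def, MvPolynomial.eval₂_eq', MvPolynomial.eval₂_eq', Finset.mul_sum]
  refine Finset.sum_congr rfl fun d hd => ?_
  have h1 : ∑ i, d i = 6 := by
    rw [hf.degree_eq_sum_deg_support hd]
    exact (Finset.sum_subset (Finset.subset_univ _) fun i _ hi => Finsupp.notMem_support_iff.1 hi).symm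
  rw [Finset.prod_congr rfl fun i _ => mul_pow c (p i) (d i), Finset.prod_mul_distrib,
    Finset.prod_pow_eq_pow_sum, h1]
  ring

private theorem gd_ev0 {F : Type} [Field F] [Algebra K F] (hf : f.IsHomogeneous 6) {p : Fin 3 → F} (hp : p = 0) : ev f p = 0 := by
  have h := gd_sc hf (0 : F) p
  rw [zero_pow (by norm_num : (6 : ℕ) ≠ 0), zero_mul] at h
  have e : (fun i => 0 * p i) = p := by
    rw [hp]
    funext i
    exact zero_mul _
  rwa [e] at h

private theorem gd_spc {F1 F : Type} [Field F1] [Algebra K1 F1] [Field F] [Algebra K F] {V : ValuationSubring F1} {ψ : V →+* F}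
    {P : Fin k → XP f1 F1} {p : Fin k → XP f F} :
    Spc (gd_w k) V ψ (gd_to P) (gd_to p) ↔
      ∀ j, ∃ c : F1, c ≠ 0 ∧ (∀ i, Rd V ψ (c * (P j).p i) ((p j).p i)) ∧ Rd V ψ (c ^ 3 * (P j).z) (p j).z := by
  refine forall_congr' fun j => ?_
  have hne : gd_to p j ≠ 0 := by
    intro h0
    refine (gd_on_to p j).1 ?_
    rw [h0]
    funext i
    fin_cases i <;> rfl
  constructor
  · rintro ⟨-, c, hc, h⟩
    refine ⟨c, hc, fun i => ?_, h 3⟩
    have h0 : Rd V ψ (c ^ 1 * (P j).p 0) ((p j).p 0) := h 0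
    have h1 : Rd V ψ (c ^ 1 * (P j).p 1) ((p j).p 1) := h 1
    have h2 : Rd V ψ (c ^ 1 * (P j).p 2) ((p j).p 2) := h 2
    rw [pow_one] at h0 h1 h2
    fin_cases i
    · exact h0
    · exact h1
    · exact h2
  · rintro ⟨c, hc, h, h3⟩
    refine ⟨hne, c, hc, fun i => ?_⟩
    fin_cases i
    · change Rd V ψ (c ^ 1 * (P j).p 0) ((p j).p 0)
      rw [pow_one]
      exact h 0
    · change Rd V ψ (c ^ 1 * (P j).p 1) ((p j).p 1)
      rw [pow_one]
      exact h 1
    · change Rd V ψ (c ^ 1 * (P j).p 2) ((p j).p 2)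
      rw [pow_one]
      exact h 2
    · exact h3

private theorem gd_rd_sum {F1 F : Type} [Field F1] [Field F] {V : ValuationSubring F1} {ψ : V →+* F} {ι : Type} (T : Finset ι)
    (x : ι → F1) (a : ι → F) (h : ∀ i ∈ T, Rd V ψ (x i) (a i)) : Rd V ψ (∑ i ∈ T, x i) (∑ i ∈ T, a i) := by
  classical
  induction T using Finset.induction_on with
  | empty => rw [Finset.sum_empty, Finset.sum_empty]; exact Rd.zero
  | insert i T hi ih =>
    rw [Finset.sum_insert hi, Finset.sum_insert hi]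
    exact (h i (Finset.mem_insert_self _ _)).add (ih fun j hj => h j (Finset.mem_insert_of_mem hj))

private theorem gd_rd_prod {F1 F : Type} [Field F1] [Field F] {V : ValuationSubring F1} {ψ : V →+* F} {ι : Type} (T : Finset ι)
    (x : ι → F1) (a : ι → F) (h : ∀ i ∈ T, Rd V ψ (x i) (a i)) : Rd V ψ (∏ i ∈ T, x i) (∏ i ∈ T, a i) := by
  classical
  induction T using Finset.induction_on with
  | empty => rw [Finset.prod_empty, Finset.prod_empty]; exact Rd.one
  | insert i T hi ih =>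
    rw [Finset.prod_insert hi, Finset.prod_insert hi]
    exact (h i (Finset.mem_insert_self _ _)).mul (ih fun j hj => h j (Finset.mem_insert_of_mem hj))

private theorem gd_evT {F : Type} [Field F] [Algebra K F] (f : MvPolynomial (Fin 3) K) (β : Fin 3 → F)
    (T : Finset (Fin 3 →₀ ℕ)) (hT : f.support ⊆ T) :
    ev f β = ∑ d ∈ T, algebraMap K F (MvPolynomial.coeff d f) * ∏ i, β i ^ d i := by
  unfold ev
  rw [MvPolynomial.aeval_def, MvPolynomial.eval₂_eq']
  refine Finset.sum_subset hT fun d _ hd => ?_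
  rw [MvPolynomial.notMem_support_iff.1 hd, map_zero, zero_mul]

private theorem gd_rd_ev {F1 F : Type} [Field F1] [Algebra K1 F1] [Field F] [Algebra K F] {V : ValuationSubring F1}
    {ψ : V →+* F}
    (hr : ∀ m, Rd V ψ (algebraMap K1 F1 (MvPolynomial.coeff m f1)) (algebraMap K F (MvPolynomial.coeff m f)))
    {β1 : Fin 3 → F1} {β : Fin 3 → F} (hβ : ∀ i, Rd V ψ (β1 i) (β i)) : Rd V ψ (ev f1 β1) (ev f β) := by
  classical
  rw [gd_evT f1 β1 (f1.support ∪ f.support) Finset.subset_union_left,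
    gd_evT f β (f1.support ∪ f.support) Finset.subset_union_right]
  exact gd_rd_sum _ _ _ fun d _ => (hr d).mul (gd_rd_prod _ _ _ fun i _ => (hβ i).pow _)

/-- closedness -/
private theorem gd_on {F1 F : Type} [Field F1] [Algebra K1 F1] [Field F] [Algebra K F] {V : ValuationSubring F1}
    {ψ : V →+* F} (hf1 : f1.IsHomogeneous 6) (hf : f.IsHomogeneous 6)
    (hr : ∀ m, Rd V ψ (algebraMap K1 F1 (MvPolynomial.coeff m f1)) (algebraMap K F (MvPolynomial.coeff m f)))
    {P : Vc (fun _ : Fin k => Fin 4) F1} {p : Vc (fun _ : Fin k => Fin 4) F} (hP : gd_OnD f1 P) (hp : Spc (gd_w k) V ψ P p) :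
    gd_OnD f p := by
  intro j
  obtain ⟨hpj, c, hc, hrd⟩ := hp j
  obtain ⟨-, hPj⟩ := hP j
  have h0 : ∀ i, Rd V ψ (c * gd_hd (P j) i) (gd_hd (p j) i) := by
    intro i
    have e0 : Rd V ψ (c ^ 1 * P j 0) (p j 0) := hrd 0
    have e1 : Rd V ψ (c ^ 1 * P j 1) (p j 1) := hrd 1
    have e2 : Rd V ψ (c ^ 1 * P j 2) (p j 2) := hrd 2
    rw [pow_one] at e0 e1 e2
    fin_cases i
    · exact e0
    · exact e1
    · exact e2
  have h3 : Rd V ψ (c ^ 3 * P j 3) (p j 3) := hrd 3
  have h4 := gd_rd_ev hr h0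
  rw [gd_sc hf1] at h4
  have h5 := h3.pow 2
  have h6 : (c ^ 3 * P j 3) ^ 2 = c ^ 6 * ev f1 (gd_hd (P j)) := by
    rw [← hPj]
    ring
  rw [h6] at h5
  have h7 : p j 3 ^ 2 = ev f (gd_hd (p j)) := h5.unique h4
  refine ⟨fun h8 => hpj ?_, h7⟩
  have h9 : p j 3 = 0 := by
    rw [gd_ev0 hf h8] at h7
    exact pow_eq_zero_iff (two_ne_zero) |>.1 h7
  funext i
  have g0 : p j 0 = 0 := congrFun h8 0
  have g1 : p j 1 = 0 := congrFun h8 1
  have g2 : p j 2 = 0 := congrFun h8 2
  fin_cases i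
  · exact g0
  · exact g1
  · exact g2
  · exact h9

private theorem gd_cst {F G : Type} [Field F] [Algebra K F] [Field G] [Algebra K G] (g : F →ₐ[K] G)
    {p : Vc (fun _ : Fin k => Fin 4) F} (h : gd_OnD f p) : gd_OnD f (mp g p) := by
  intro j
  obtain ⟨h1, h2⟩ := h j
  have e : gd_hd (mp g p j) = fun i => g (gd_hd (p j) i) := by
    funext i
    fin_cases i <;> rfl
  refine ⟨fun h0 => h1 ?_, ?_⟩
  · rw [e] at h0
    funext i
    exact (map_eq_zero_iff g (RingHom.injective (g : F →+* G))).1 (congrFun h0 i)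
  · rw [e, ← ev_map, ← h2, map_pow]
    rfl

private theorem gd_scl {F : Type} [Field F] [Algebra K F] (hf : f.IsHomogeneous 6) {P : Vc (fun _ : Fin k => Fin 4) F}
    (h : gd_OnD f P) {c : Fin k → F} (hc : ∀ j, c j ≠ 0) : gd_OnD f (scl (gd_w k) c P) := by
  intro j
  obtain ⟨h1, h2⟩ := h j
  have e : gd_hd (scl (gd_w k) c P j) = fun i => c j * gd_hd (P j) i := by
    funext i
    fin_cases i
    · change c j ^ 1 * P j 0 = c j * P j 0
      rw [pow_one]
    · change c j ^ 1 * P j 1 = c j * P j 1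
      rw [pow_one]
    · change c j ^ 1 * P j 2 = c j * P j 2
      rw [pow_one]
  refine ⟨fun h0 => h1 ?_, ?_⟩
  · rw [e] at h0
    funext i
    exact (mul_eq_zero.1 (congrFun h0 i)).resolve_left (hc j)
  · rw [e, gd_sc hf, ← h2]
    change (c j ^ 3 * P j 3) ^ 2 = _
    ring

private theorem gd_pt {F : Type} [Field F] [Algebra K F] [IsAlgClosed F] (f : MvPolynomial (Fin 3) K) : Nonempty (XP f F) := by
  obtain ⟨z, hz⟩ := IsAlgClosed.exists_pow_nat_eq (ev f (fun _ : Fin 3 => (1 : F))) (n := 2) (by norm_num)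
  exact ⟨⟨fun _ => 1, z, fun h => one_ne_zero (congrFun h 0), hz⟩⟩

private theorem gd_plc (π : Place L (Om L)) (m : Fin 3 →₀ ℕ) :
    Rd π.V π.φ (algebraMap K (Om L) (MvPolynomial.coeff m f)) (algebraMap K L (MvPolynomial.coeff m f)) := by
  rw [IsScalarTower.algebraMap_apply K L (Om L)]
  exact π.const _

private theorem gd_hom {α β ι : Type} (g : α → β) (T : Finset ι) (n : ι → ℤ) (x : ι → α) :
    Finsupp.mapDomain g (∑ i ∈ T, n i • (Finsupp.single (x i) 1 : α →₀ ℤ)) =
      ∑ i ∈ T, n i • (Finsupp.single (g (x i)) 1 : β →₀ ℤ) := by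
  have e := map_sum (Finsupp.mapDomain.addMonoidHom (M := ℤ) g) (fun i => n i • (Finsupp.single (x i) 1 : α →₀ ℤ)) T
  refine e.trans (Finset.sum_congr rfl fun i _ => ?_)
  rw [map_zsmul]
  congr 1
  change Finsupp.mapDomain g (Finsupp.single (x i) 1) = _
  rw [Finsupp.mapDomain_single]

private theorem gd_sub {α β : Type} (g : α → β) (x y : α →₀ ℤ) :
    Finsupp.mapDomain g (x - y) = Finsupp.mapDomain g x - Finsupp.mapDomain g y :=
  map_sub (Finsupp.mapDomain.addMonoidHom (M := ℤ) g) x y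

private theorem gd_neg {α β : Type} (g : α → β) (x : α →₀ ℤ) :
    Finsupp.mapDomain g (-x) = -Finsupp.mapDomain g x :=
  map_neg (Finsupp.mapDomain.addMonoidHom (M := ℤ) g) x

private theorem gd_nsmul {α β : Type} (g : α → β) (N : ℕ) (x : α →₀ ℤ) :
    Finsupp.mapDomain g (N • x) = N • Finsupp.mapDomain g x :=
  map_nsmul (Finsupp.mapDomain.addMonoidHom (M := ℤ) g) N x

private theorem gd_ms {α β : Type} (g : α → β) (C : Multiset α) :
    Finsupp.mapDomain g ((C.map fun P => (Finsupp.single P 1 : α →₀ ℤ)).sum) =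
      ((C.map g).map fun P => (Finsupp.single P 1 : β →₀ ℤ)).sum := by
  have h := map_multiset_sum (Finsupp.mapDomain.addMonoidHom (M := ℤ) g) (C.map fun P => (Finsupp.single P 1 : α →₀ ℤ))
  rw [Multiset.map_map] at h
  rw [Multiset.map_map]
  refine h.trans (congrArg Multiset.sum (Multiset.map_congr rfl fun P _ => ?_))
  change Finsupp.mapDomain g (Finsupp.single P 1) = Finsupp.single (g P) 1
  rw [Finsupp.mapDomain_single]

private theorem gd_mp (σ : Om L ≃ₐ[RatFunc L] Om L) (P : Fin k → XP f (Om L)) :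
    mp σ (gd_to P) = gd_to (fun i => H25.DPR.conj σ (P i)) := by
  funext j i
  fin_cases i <;> rfl

private theorem gd_to_rat {z : H25.DPR.Cyc f L k} (hz : z ∈ H25.DPR.RatEq f L k) :
    Finsupp.mapDomain gd_to z ∈ RatG (gd_w k) (gd_OnD (F := Om L) f) := by
  unfold H25.DPR.RatEq at hz
  induction hz using AddSubgroup.closure_induction with
  | mem z hz =>
    obtain ⟨S, π, π', c, c', hG, h1, h2, rfl⟩ := hz
    refine AddSubgroup.subset_closure ⟨S.map gd_to, π, π', c.map gd_to, c'.map gd_to, ?_, ?_, ?_, ?_, ?_⟩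
    · intro P hP
      obtain ⟨Q, hQ, rfl⟩ := Multiset.mem_map.1 hP
      exact gd_on_to Q
    · intro σ
      conv_rhs => rw [← hG σ]
      rw [Multiset.map_map, Multiset.map_map]
      exact Multiset.map_congr rfl fun P _ => gd_mp σ P
    · rw [Multiset.rel_map]
      exact Multiset.Rel.mono h1 fun P _ p _ h => gd_spc.2 h
    · rw [Multiset.rel_map]
      exact Multiset.Rel.mono h2 fun P _ p _ h => gd_spc.2 h
    · rw [gd_sub]
      unfold H25.DPR.cyc
      rw [gd_ms, gd_ms]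
      rfl
  | zero => rw [Finsupp.mapDomain_zero]; exact AddSubgroup.zero_mem _
  | add x y _ _ hx hy => rw [Finsupp.mapDomain_add]; exact AddSubgroup.add_mem _ hx hy
  | neg x _ hx =>
    rw [gd_neg]
    exact AddSubgroup.neg_mem _ hx

private theorem gd_of_rat (hf : f.IsHomogeneous 6) (d : XP f L) (d' : XP f (Om L)) {z : Cy (fun _ : Fin k => Fin 4) L}
    (hz : z ∈ RatG (gd_w k) (gd_OnD (F := Om L) f)) : Finsupp.mapDomain (gd_of d) z ∈ H25.DPR.RatEq f L k := by
  unfold RatG at hz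
  induction hz using AddSubgroup.closure_induction with
  | mem z hz =>
    obtain ⟨S, π, π', c, c', hS, hG, h1, h2, rfl⟩ := hz
    have hrel : ∀ (ρ : Place L (Om L)) (C : Multiset (Vc (fun _ : Fin k => Fin 4) L)),
        Multiset.Rel (Spc (gd_w k) ρ.V ρ.φ) S C →
        Multiset.Rel (H25.DPR.SpT ρ) (S.map (gd_of d')) (C.map (gd_of d)) := by
      intro ρ C hC
      rw [Multiset.rel_map]
      refine Multiset.Rel.mono hC fun P hP p _ h => ?_
      have hp : gd_OnD f p := gd_on hf hf (gd_plc ρ) (hS P hP) h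
      refine gd_spc.1 ?_
      rw [gd_to_of d' (hS P hP), gd_to_of d hp]
      exact h
    refine AddSubgroup.subset_closure ⟨S.map (gd_of d'), π, π', c.map (gd_of d), c'.map (gd_of d), ?_, hrel π c h1, hrel π' c' h2, ?_⟩
    · intro σ
      conv_rhs => rw [← hG σ]
      rw [Multiset.map_map, Multiset.map_map]
      refine Multiset.map_congr rfl fun P hP => ?_
      have h3 : gd_OnD f (mp σ P) := gd_cst ((σ : Om L →ₐ[RatFunc L] Om L).restrictScalars K) (hS P hP)
      refine gd_inj ?_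
      change gd_to (fun i => H25.DPR.conj σ (gd_of d' P i)) = gd_to (gd_of d' (mp σ P))
      rw [gd_to_of d' h3, ← gd_mp, gd_to_of d' (hS P hP)]
    · rw [gd_sub]
      unfold cy H25.DPR.cyc
      rw [gd_ms, gd_ms]
  | zero => rw [Finsupp.mapDomain_zero]; exact AddSubgroup.zero_mem _
  | add x y _ _ hx hy => rw [Finsupp.mapDomain_add]; exact AddSubgroup.add_mem _ hx hy
  | neg x _ hx =>
    rw [gd_neg]
    exact AddSubgroup.neg_mem _ hx

private theorem gd_clo {V : ValuationSubring L1} {φ : V →+* L} [IsLocalHom φ]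
    (hf : f.IsHomogeneous 6) (hf1 : f1.IsHomogeneous 6)
    (hr : ∀ m, Rd V φ (algebraMap K1 L1 (MvPolynomial.coeff m f1)) (algebraMap K L (MvPolynomial.coeff m f))) :
    Clo (gd_w k) V φ (gd_OnD (F := Om L1) f1) (gd_OnD (F := Om L) f) := by
  have hc : ∀ {p : Vc (fun _ : Fin k => Fin 4) L}, gd_OnD f p → gd_OnD f (mp (algebraMap L (Om L)) p) := fun h =>
    gd_cst (IsScalarTower.toAlgHom K L (Om L)) h
  refine ⟨fun P hP j h0 => (hP j).1 ?_, ?_, ?_, ?_, ?_⟩
  · rw [h0]
    funext i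
    fin_cases i <;> rfl
  · intro E P p hP hp
    refine gd_on hf1 hf (fun m => ?_) hP hp
    obtain ⟨hm, h1⟩ := hr m
    rw [IsScalarTower.algebraMap_apply K1 L1 (Om L1), IsScalarTower.algebraMap_apply K L (Om L), ← h1]
    exact E.ext ⟨_, hm⟩
  · intro π P p hP hp
    exact hc (gd_on hf hf (gd_plc π) hP hp)
  · rintro P P' hP ⟨c, hc, rfl⟩
    exact gd_scl hf hP hc
  · intro π P p q hP hp hq
    exact hc (gd_on hf1 hf hr (gd_on hf1 hf1 (gd_plc π) hP hp) hq)

/-- the coordinates of the point `P` over `L1` reduce to those of `p` over `L` -/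
def RdD (V : ValuationSubring L1) (φ : V →+* L) (P : XP f1 L1) (p : XP f L) : Prop :=
  (∀ i, Rd V φ (P.p i) (p.p i)) ∧ Rd V φ P.z p.z

theorem dp_spz [IsAlgClosed L1] [IsAlgClosed L] [CharZero L1] {V : ValuationSubring L1} {φ : V →+* L} [IsLocalHom φ]
    (hf : f.IsHomogeneous 6) (hf1 : f1.IsHomogeneous 6)
    (hr : ∀ m, Rd V φ (algebraMap K1 L1 (MvPolynomial.coeff m f1)) (algebraMap K L (MvPolynomial.coeff m f))) :
    ∃ N : ℕ, 0 < N ∧ ∀ (ι : Type) (T : Finset ι) (n : ι → ℤ) (P : ι → Fin k → XP f1 L1) (p : ι → Fin k → XP f L),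
      (∀ i ∈ T, ∀ j, RdD V φ (P i j) (p i j)) →
      (∑ i ∈ T, n i • Finsupp.single (P i) 1 : H25.DPR.Cyc f1 L1 k) ∈ H25.DPR.RatEq f1 L1 k →
      N • (∑ i ∈ T, n i • Finsupp.single (p i) 1 : H25.DPR.Cyc f L k) ∈ H25.DPR.RatEq f L k := by
  classical
  have hw : ∀ (j : Fin k) (i : Fin 4), 0 < gd_w k j i := by
    intro j i
    fin_cases i
    · exact one_pos
    · exact one_pos
    · exact one_pos
    · change 0 < 3
      norm_num
  obtain ⟨N, hN⟩ := orb_exists hw
  refine ⟨N, hN.1, ?_⟩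
  intro ι T n P p hPp hz
  obtain ⟨d⟩ : Nonempty (XP f L) := gd_pt f
  obtain ⟨d'⟩ : Nonempty (XP f (Om L)) := gd_pt f
  have hC := gd_clo (k := k) hf hf1 hr
  have htn : ∀ q : Fin k → XP f L, NZ (gd_to q) := by
    intro q j h0
    refine (gd_on_to q j).1 ?_
    rw [h0]
    funext i
    fin_cases i <;> rfl
  let sp : Vc (fun _ : Fin k => Fin 4) L1 → Vc (fun _ : Fin k => Fin 4) L := fun Q =>
    if hQ : ∃ q : Vc (fun _ : Fin k => Fin 4) L, NZ q ∧ ∀ j i, Rd V φ (Q j i) (q j i) then hQ.choose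
    else if hQ : ∃ q, Spc (gd_w k) V φ Q q then hQ.choose else 0
  have hsp : ∀ Q, NZ Q → Spc (gd_w k) V φ Q (sp Q) := by
    intro Q hQ
    by_cases h2 : ∃ q : Vc (fun _ : Fin k => Fin 4) L, NZ q ∧ ∀ j i, Rd V φ (Q j i) (q j i)
    · have e : sp Q = h2.choose := dif_pos h2
      rw [e]
      exact Spc.of_rd h2.choose_spec.1 h2.choose_spec.2
    · have h3 : ∃ q, Spc (gd_w k) V φ Q q := spc_exists hw V φ hQ
      have e : sp Q = h3.choose := (dif_neg h2).trans (dif_pos h3)
      rw [e]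
      exact h3.choose_spec
  have hspP : ∀ i ∈ T, sp (gd_to (P i)) = gd_to (p i) := by
    intro i hi
    have hrd : ∀ j x, Rd V φ (gd_to (P i) j x) (gd_to (p i) j x) := by
      intro j x
      obtain ⟨h2, h3⟩ := hPp i hi j
      fin_cases x
      · exact h2 0
      · exact h2 1
      · exact h2 2
      · exact h3
    have h2 : ∃ q : Vc (fun _ : Fin k => Fin 4) L, NZ q ∧ ∀ j x, Rd V φ (gd_to (P i) j x) (q j x) :=
      ⟨gd_to (p i), htn (p i), hrd⟩
    have e : sp (gd_to (P i)) = h2.choose := dif_pos h2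
    rw [e]
    funext j x
    exact (h2.choose_spec.2 j x).unique (hrd j x)
  have hz2 := gd_to_rat hz
  have h5 := spz hw hN hC hsp hz2
  rw [gd_hom, gd_hom] at h5
  have e2 : (∑ i ∈ T, n i • (Finsupp.single (sp (gd_to (P i))) 1 : Cy (fun _ : Fin k => Fin 4) L)) =
      ∑ i ∈ T, n i • (Finsupp.single (gd_to (p i)) 1 : Cy (fun _ : Fin k => Fin 4) L) :=
    Finset.sum_congr rfl fun i hi => by rw [hspP i hi]
  rw [e2] at h5
  have h6 := gd_of_rat hf d d' h5
  rw [gd_nsmul, gd_hom] at h6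
  have e3 : (∑ i ∈ T, n i • (Finsupp.single (gd_of d (gd_to (p i))) 1 : H25.DPR.Cyc f L k)) =
      ∑ i ∈ T, n i • (Finsupp.single (p i) 1 : H25.DPR.Cyc f L k) :=
    Finset.sum_congr rfl fun i _ => by rw [gd_of_to]
  rw [e3] at h6
  exact h6

/-- lifting points -/
theorem lift_xp [IsAlgClosed L1] {V : ValuationSubring L1} {φ : V →+* L} [IsLocalHom φ] (hs : Function.Surjective φ)
    (hr : ∀ m, Rd V φ (algebraMap K1 L1 (MvPolynomial.coeff m f1)) (algebraMap K L (MvPolynomial.coeff m f))) (p : XP f L) :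
    ∃ P : XP f1 L1, RdD V φ P p := by
  choose g hg using hs
  have h0 : ∀ i, Rd V φ ((g (p.p i) : V) : L1) (p.p i) := fun i => ⟨(g (p.p i)).2, hg _⟩
  have hev := gd_rd_ev hr (β1 := fun i => ((g (p.p i) : V) : L1)) h0
  have hne : (fun i => ((g (p.p i) : V) : L1)) ≠ 0 := by
    intro h1
    apply p.ne
    funext i
    have h2 := h0 i
    have h3 : ((g (p.p i) : V) : L1) = 0 := congrFun h1 i
    rw [h3] at h2
    exact h2.unique Rd.zero
  obtain ⟨y, hy⟩ := IsAlgClosed.exists_pow_nat_eq (ev f1 (fun i => ((g (p.p i) : V) : L1))) (n := 2) (by norm_num)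
  have hyV : y ∈ V := by
    have h1 : y ^ 2 ∈ V := by
      rw [hy]
      exact hev.mem
    rw [← ValuationSubring.valuation_le_one_iff, map_pow] at h1
    rw [← ValuationSubring.valuation_le_one_iff]
    exact (pow_le_one_iff two_ne_zero).1 h1
  have hyr : Rd V φ y (φ ⟨y, hyV⟩) := Rd.of_mem hyV
  have h2 := hyr.pow 2
  rw [hy] at h2
  have h3 : φ ⟨y, hyV⟩ ^ 2 = p.z ^ 2 := by
    rw [p.eq]
    exact h2.unique hev
  rcases sq_eq_sq_iff_eq_or_eq_neg.1 h3 with h4 | h4
  · refine ⟨⟨fun i => ((g (p.p i) : V) : L1), y, hne, hy⟩, h0, ?_⟩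
    rw [← h4]
    exact hyr
  · refine ⟨⟨fun i => ((g (p.p i) : V) : L1), -y, hne, by rw [neg_sq]; exact hy⟩, h0, ?_⟩
    have h5 : p.z = -φ ⟨y, hyV⟩ := by rw [h4, neg_neg]
    change Rd V φ (-y) p.z
    rw [h5]
    exact hyr.neg

end SD
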