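import Pool.Agent.H71.SZ.Spc
import Pool.Agent.H71.SD.Lang
import Pool.Agent.H25.DP.LinF

/-! # SD.Gen : the generic sextic form (about 150 lines)

`Mo = Fin 3 →₀ ℕ` indexes the coefficients, `U = AlgebraicClosure (FractionRing (MvPolynomial Mo ℤ))`, `fU = ∑_{|m| = 6} a_m X^m`.
`fU_hom`: clear.  `fU_sm`: let `c ≠ 0` with `grad fU c = 0`.  `R` = the image of `MvPolynomial Mo ℤ` in `U` (injective), `χ : R → AlgebraicClosure ℚ`, `a_m ↦ ` the coefficient of `X_0^6 + X_1^6 + X_2^6`; `lang_exists` gives a valuation subring `V` of `U` and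
`φ : V → AlgebraicClosure ℚ`.  Scale `c` to be integral with reduction `c' ≠ 0` (`SZ.spc_exists` with one block and weights 1; `grad` is homogeneous of degree 5).  Reduction of `grad fU c i = 0` gives `6 c' i ^ 5 = 0`. -/

namespace SD

open H68.BB H25.DP

/-- indices of the coefficients -/
abbrev Mo : Type := Fin 3 →₀ ℕ

/-- the universal field -/
abbrev U : Type := AlgebraicClosure (FractionRing (MvPolynomial Mo ℤ))

/-- the image of the polynomial ring -/
noncomputable def toU : MvPolynomial Mo ℤ →+* U := algebraMap (MvPolynomial Mo ℤ) U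

theorem toU_inj : Function.Injective toU := by
  have h1 : Function.Injective (algebraMap (MvPolynomial Mo ℤ) (FractionRing (MvPolynomial Mo ℤ))) :=
    IsFractionRing.injective _ _
  have h2 : Function.Injective (algebraMap (FractionRing (MvPolynomial Mo ℤ)) U) :=
    (algebraMap (FractionRing (MvPolynomial Mo ℤ)) U).injective
  unfold toU
  rw [IsScalarTower.algebraMap_eq (MvPolynomial Mo ℤ) (FractionRing (MvPolynomial Mo ℤ)) U]
  exact h2.comp h1

instance instU : CharZero U := by
  exact charZero_of_injective_algebraMap (R := MvPolynomial Mo ℤ) toU_inj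

/-- the exponents of the monomials of degree 6 -/
noncomputable def ex6 : Finset Mo := (Finset.finsuppAntidiag Finset.univ 6 : Finset Mo)

/-- the generic sextic form -/
noncomputable def fU : MvPolynomial (Fin 3) U := ∑ m ∈ ex6, MvPolynomial.monomial m (toU (MvPolynomial.X m))

theorem coeff_fU (m : Mo) : MvPolynomial.coeff m fU = if m ∈ ex6 then toU (MvPolynomial.X m) else 0 := by
  classical
  unfold fU
  rw [MvPolynomial.coeff_sum]
  simp only [MvPolynomial.coeff_monomial]
  rw [Finset.sum_ite_eq']

theorem mem_ex6 (m : Mo) : m ∈ ex6 ↔ m.degree = 6 := by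
  unfold ex6
  rw [Finset.mem_finsuppAntidiag, Finsupp.degree_eq_sum]
  constructor
  · rintro ⟨h, -⟩
    exact h
  · intro h
    exact ⟨h, Finset.subset_univ _⟩

/-- the generic form over the polynomial ring -/
private noncomputable def F0 : MvPolynomial (Fin 3) (MvPolynomial Mo ℤ) :=
  ∑ m ∈ ex6, MvPolynomial.monomial m (MvPolynomial.X m)

private theorem map_F0 : MvPolynomial.map toU F0 = fU := by
  unfold F0 fU
  rw [map_sum]
  exact Finset.sum_congr rfl fun m _ => by rw [MvPolynomial.map_monomial]

open Classical in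
/-- the coefficients of the Fermat sextic -/
private noncomputable def fc (m : Mo) : AlgebraicClosure ℚ := if ∃ i : Fin 3, m = Finsupp.single i 6 then 1 else 0

private noncomputable def chi0 : MvPolynomial Mo ℤ →+* AlgebraicClosure ℚ :=
  MvPolynomial.eval₂Hom (Int.castRingHom (AlgebraicClosure ℚ)) fc

private theorem map_chi0 : MvPolynomial.map chi0 F0 =
    ∑ i : Fin 3, (MvPolynomial.X i ^ 6 : MvPolynomial (Fin 3) (AlgebraicClosure ℚ)) := by
  classical
  unfold F0
  rw [map_sum]
  have h1 : ∀ m ∈ ex6, MvPolynomial.map chi0 (MvPolynomial.monomial m (MvPolynomial.X m)) =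
      MvPolynomial.monomial m (fc m) := by
    intro m _
    rw [MvPolynomial.map_monomial]
    congr 1
    unfold chi0
    rw [MvPolynomial.coe_eval₂Hom, MvPolynomial.eval₂_X]
  rw [Finset.sum_congr rfl h1]
  have hinj : Function.Injective fun i : Fin 3 => (Finsupp.single i 6 : Mo) := by
    intro i j hij
    exact Finsupp.single_left_injective (by norm_num) hij
  have hsub : Finset.univ.image (fun i : Fin 3 => (Finsupp.single i 6 : Mo)) ⊆ ex6 := by
    intro m hm
    obtain ⟨i, -, rfl⟩ := Finset.mem_image.1 hm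
    rw [mem_ex6, Finsupp.degree_single]
  rw [← Finset.sum_subset hsub, Finset.sum_image fun i _ j _ hij => hinj hij]
  · refine Finset.sum_congr rfl fun i _ => ?_
    unfold fc
    rw [if_pos ⟨i, rfl⟩, MvPolynomial.X_pow_eq_monomial]
  · intro m _ hm
    unfold fc
    rw [if_neg, MvPolynomial.monomial_zero]
    rintro ⟨i, rfl⟩
    exact hm (Finset.mem_image.2 ⟨i, Finset.mem_univ _, rfl⟩)

theorem fU_sm : Sm fU := by
  classical
  have hhom : fU.IsHomogeneous 6 := by
    unfold fU
    refine MvPolynomial.IsHomogeneous.sum _ _ _ fun m hm => ?_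
    exact MvPolynomial.isHomogeneous_monomial _ ((mem_ex6 m).1 hm)
  refine ⟨hhom, ?_⟩
  intro c hc hgrad
  -- the place to the Fermat sextic
  let e : MvPolynomial Mo ℤ ≃+* toU.range :=
    RingEquiv.ofBijective toU.rangeRestrict
      ⟨fun a b h => toU_inj (congrArg Subtype.val h), toU.rangeRestrict_surjective⟩
  obtain ⟨V, φ, hφ, hV⟩ := lang_exists toU.range (chi0.comp (e.symm : toU.range →+* MvPolynomial Mo ℤ))
  have hmem : ∀ a, toU a ∈ V := fun a => (hV ⟨toU a, ⟨a, rfl⟩⟩).1
  let ψ : MvPolynomial Mo ℤ →+* V := toU.codRestrict V hmem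
  have hψ : ∀ a, φ (ψ a) = chi0 a := by
    intro a
    have h1 := (hV (e a)).2
    change φ ⟨toU a, _⟩ = _
    have h2 : (chi0.comp (e.symm : toU.range →+* MvPolynomial Mo ℤ)) (e a) = chi0 a := by
      change chi0 (e.symm (e a)) = _
      rw [RingEquiv.symm_apply_apply]
    rw [h2] at h1
    exact h1
  -- scale `c`
  obtain ⟨p, hp⟩ := SZ.spc_exists (J := Unit) (I := fun _ => Fin 3) (w := fun _ _ => 1) (fun _ _ => one_pos) V φ
    (P := fun _ => c) (fun _ => hc)
  obtain ⟨hp0, d, hd, hdp⟩ := hp ()
  choose hm hmp using hdp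
  let v : Fin 3 → V := fun i => ⟨d ^ 1 * c i, hm i⟩
  have hg : grad fU (fun i => d * c i) = fun _ => 0 := by
    funext i
    rw [grad_smul (n := 5) hhom d c i, hgrad]
    simp
  have hv : ∀ i, (MvPolynomial.eval₂ ψ v (MvPolynomial.pderiv i F0) : V) = 0 := by
    intro i
    have h1 : grad fU (fun i => d * c i) i = 0 := by rw [hg]
    unfold grad ev at h1
    rw [← map_F0, MvPolynomial.pderiv_map, MvPolynomial.aeval_def, MvPolynomial.eval₂_map] at h1
    apply Subtype.ext
    change V.subtype (MvPolynomial.eval₂ ψ v (MvPolynomial.pderiv i F0)) = 0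
    rw [MvPolynomial.hom_eval₂]
    refine Eq.trans ?_ h1
    have h2 : V.subtype.comp ψ = (algebraMap U U).comp toU := by
      ext a <;> rfl
    rw [h2]
    congr 1
    funext j
    change d ^ 1 * c j = d * c j
    rw [pow_one]
  apply hp0
  funext i
  have h1 := congrArg φ (hv i)
  rw [MvPolynomial.hom_eval₂, map_zero] at h1
  have h2 : φ.comp ψ = chi0 := RingHom.ext hψ
  have h3 : (fun j => φ (v j)) = p () := by
    funext j
    exact hmp j
  rw [h2, h3, ← MvPolynomial.eval_map, ← MvPolynomial.pderiv_map, map_chi0, map_sum, map_sum] at h1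
  have h4 : ∀ j : Fin 3, MvPolynomial.eval (p ()) (MvPolynomial.pderiv i
      (MvPolynomial.X j ^ 6 : MvPolynomial (Fin 3) (AlgebraicClosure ℚ))) = if j = i then 6 * p () i ^ 5 else 0 := by
    intro j
    rw [MvPolynomial.pderiv_pow, MvPolynomial.pderiv_X]
    by_cases hji : j = i
    · subst hji
      simp
    · rw [if_neg hji, Pi.single_eq_of_ne hji]
      simp
  rw [Finset.sum_congr rfl fun j _ => h4 j, Finset.sum_ite_eq'] at h1
  simpa using h1

end SD
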